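import Pool.Agent.H32.MS.Loc

set_option autoImplicit false

/-!
An invariant of elementary transformations of rational functions.
-/

open Polynomial
open Pool.Agent.Helper881.Gp
open Pool.Agent.H884R3.Ms

namespace Pool.Agent.H32.MS

noncomputable section

lemma iter_zero (F : RatFunc ℂ) : iter F 0 = RatFunc.X := rfl

lemma iter_succ (F : RatFunc ℂ) (n : ℕ) : iter F (n + 1) = comp F (iter F n) :=
  Function.iterate_succ_apply' _ _ _

lemma iter_one (F : RatFunc ℂ) : iter F 1 = F := by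
  rw [iter_succ, iter_zero, comp_X_right]

lemma iter_succ' (F : RatFunc ℂ) (hF : 1 ≤ deg F) (n : ℕ) :
    iter F (n + 1) = comp (iter F n) F := by
  obtain ⟨σ, rfl⟩ := Pool.Agent.Helper881.Cen.Hom.exists_end F hF
  rw [Pool.Agent.Helper881.Cen.Hom.iter_hom, Pool.Agent.Helper881.Cen.Hom.comp_hom,
    Pool.Agent.Helper881.Cen.Hom.iter_hom, pow_succ']
  rfl

lemma iter_iter (F : RatFunc ℂ) (hF : 1 ≤ deg F) (k n : ℕ) :
    iter (iter F k) n = iter F (k * n) := by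
  obtain ⟨σ, rfl⟩ := Pool.Agent.Helper881.Cen.Hom.exists_end F hF
  rw [Pool.Agent.Helper881.Cen.Hom.iter_hom, Pool.Agent.Helper881.Cen.Hom.iter_hom,
    Pool.Agent.Helper881.Cen.Hom.iter_hom, pow_mul]

lemma deg_iter (F : RatFunc ℂ) (hF : 1 ≤ deg F) (n : ℕ) : deg (iter F n) = deg F ^ n := by
  induction n with
  | zero => rw [iter_zero, deg_X, pow_zero]
  | succ n ih =>
    have h1 : 1 ≤ deg (iter F n) := by rw [ih]; exact Nat.one_le_pow _ _ hF
    rw [iter_succ, deg_comp _ _ h1, ih, pow_succ]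

lemma one_le_deg_iter {F : RatFunc ℂ} (hF : 1 ≤ deg F) (n : ℕ) : 1 ≤ deg (iter F n) := by
  rw [deg_iter F hF]; exact Nat.one_le_pow _ _ hF

/-- the two factors of an elementary transformation are not constant -/
lemma factors {h₁ h₂ : RatFunc ℂ} (h : 1 ≤ deg (comp h₁ h₂)) : 1 ≤ deg h₁ ∧ 1 ≤ deg h₂ := by
  have hd2 : 1 ≤ deg h₂ := by
    by_contra hcon
    have := deg_comp_const h₁ h₂ (by omega)
    omega
  refine ⟨?_, hd2⟩
  rw [deg_comp _ _ hd2] at h
  rcases Nat.eq_zero_or_pos (deg h₁) with h0 | h0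
  · rw [h0] at h; omega
  · exact h0

lemma iter_swap (h₁ h₂ : RatFunc ℂ) (d1 : 1 ≤ deg h₁) (d2 : 1 ≤ deg h₂) (n : ℕ) :
    comp (comp h₂ (iter (comp h₁ h₂) n)) h₁ = iter (comp h₂ h₁) (n + 1) := by
  obtain ⟨σ, rfl⟩ := Pool.Agent.Helper881.Cen.Hom.exists_end h₁ d1
  obtain ⟨τ, rfl⟩ := Pool.Agent.Helper881.Cen.Hom.exists_end h₂ d2
  have e1 : comp (σ RatFunc.X) (τ RatFunc.X) = (τ * σ) RatFunc.X := by
    rw [Pool.Agent.Helper881.Cen.Hom.comp_hom]; rfl
  have e2 : comp (τ RatFunc.X) (σ RatFunc.X) = (σ * τ) RatFunc.X := by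
    rw [Pool.Agent.Helper881.Cen.Hom.comp_hom]; rfl
  rw [e1, e2, Pool.Agent.Helper881.Cen.Hom.iter_hom, Pool.Agent.Helper881.Cen.Hom.iter_hom,
    Pool.Agent.Helper881.Cen.Hom.comp_hom, Pool.Agent.Helper881.Cen.Hom.comp_hom]
  have key : σ * (τ * σ) ^ n * τ = (σ * τ) ^ (n + 1) := by
    induction n with
    | zero => simp
    | succ n ih =>
      rw [pow_succ' (σ * τ) (n + 1), ← ih, pow_succ']
      simp only [mul_assoc]
  rw [← key]
  rfl

/-- over some fixed critical point of `F` there is, under some iterate, a point whose local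
degree is divisible by `5` -/
def Inv (F : RatFunc ℂ) : Prop :=
  ∃ (p x : Option ℂ) (e n m : ℕ), 2 ≤ e ∧ At F p p e ∧ At (iter F n) x p (5 * m)

lemma inv_step {F F' : RatFunc ℂ} (hF : 1 ≤ deg F) (h : ElemTransform F F') (hi : Inv F) :
    Inv F' ∧ 1 ≤ deg F' := by
  obtain ⟨h₁, h₂, rfl, rfl⟩ := h
  obtain ⟨d1, d2⟩ := factors hF
  obtain ⟨p, x, e, n, m, he, hp, hx⟩ := hi
  obtain ⟨p', a, ha⟩ := At_exists d2 p
  obtain ⟨p'', b, hb⟩ := At_exists d1 p'
  obtain ⟨hpp, hab⟩ := At_unique (At_comp d2 ha hb) hp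
  subst hpp
  have hdeg : 1 ≤ deg (comp h₂ h₁) := by
    rw [deg_comp _ _ d1]
    exact Nat.mul_pos d1 d2
  refine ⟨?_, hdeg⟩
  obtain ⟨x', c, hc⟩ := At_surj d1 x
  refine ⟨p', x', b * a, n + 1, c * (m * a), ?_, At_comp d1 hb ha, ?_⟩
  · rw [mul_comm, hab]; exact he
  · rw [← iter_swap h₁ h₂ d1 d2 n]
    have h1 := At_comp d1 hc (At_comp (one_le_deg_iter hF n) hx ha)
    have e1 : c * (5 * m * a) = 5 * (c * (m * a)) := by ring
    rwa [e1] at h1

lemma inv_equiv {F F' : RatFunc ℂ} (hF : 1 ≤ deg F) (h : ElemEquivalent F F') (hi : Inv F) :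
    Inv F' ∧ 1 ≤ deg F' := by
  induction h with
  | refl => exact ⟨hi, hF⟩
  | tail _ hstep ih => exact inv_step ih.2 hstep ih.1

/-- conjugate maps are elementary transformations of each other -/
lemma elem_of_conj {f g : RatFunc ℂ} (hf : 1 ≤ deg f) (h : Conjugate f g) :
    ElemTransform f g := by
  obtain ⟨m, hm, e⟩ := h
  obtain ⟨σ, hσ⟩ := Pool.Agent.Helper881.Cen.Hom.exists_end m (by omega)
  obtain ⟨s, hs⟩ := Pool.Agent.Helper881.Cen.Hom.moebius_of_deg_one σ (by rw [hσ]; exact hm)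
  have hd : deg (s.symm RatFunc.X) = 1 := by
    have := Pool.Agent.Helper881.Cen.Hom.deg_hom σ (s.symm RatFunc.X)
    rw [hs, AlgEquiv.apply_symm_apply, hσ, hm, deg_X] at this
    omega
  set m' := s.symm RatFunc.X with hm'
  have k1 : comp m' m = RatFunc.X := by
    rw [← hσ, Pool.Agent.Helper881.Cen.Hom.comp_hom, hs, hm', AlgEquiv.apply_symm_apply]
  have k2 : comp m m' = RatFunc.X := by
    have := Pool.Agent.Helper881.Cen.Hom.comp_hom m (s.symm : RatFunc ℂ →ₐ[ℂ] RatFunc ℂ)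
    have e : (s.symm : RatFunc ℂ →ₐ[ℂ] RatFunc ℂ) RatFunc.X = s.symm RatFunc.X := rfl
    rw [e] at this
    rw [hm', this, ← hσ, hs]
    exact AlgEquiv.symm_apply_apply s RatFunc.X
  have hm1 : 1 ≤ deg m := by omega
  have hm2 : 1 ≤ deg m' := by omega
  refine ⟨comp f m', m, ?_, ?_⟩
  · rw [← comp_assoc f m' m hm2 hm1, k1, comp_X_right]
  · rw [comp_assoc m f m' hf hm2, e, ← comp_assoc g m m' hm1 hm2, k2, comp_X_right]

end

end Pool.Agent.H32.MS
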