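import Pool.Agent.H32.MS.Inv
import Pool.Graph.R_seed8.H884R3.MsLattes

set_option autoImplicit false

/-!
A rational function with a pole of order at least two at infinity is not a Lattès map.
-/

open Polynomial Filter Topology
open Pool.Agent.Helper881.Gp
open Pool.Agent.H884R3.Ms

namespace Pool.Agent.H32.MS

noncomputable section

lemma const_nonneg (x c : ℂ) : (0 : WithTop ℤ) ≤ meromorphicOrderAt (fun _ : ℂ => c) x :=
  AnalyticAt.meromorphicOrderAt_nonneg analyticAt_const

lemma lin_order (θ : ℂ → ℂ) (x : ℂ) (k : ℤ) (hk : k < 0)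
    (ho : meromorphicOrderAt θ x = (k : WithTop ℤ)) (a : ℂ) :
    meromorphicOrderAt (fun z => θ z - a) x = (k : WithTop ℤ) := by
  have hk' : (k : WithTop ℤ) < 0 := by exact_mod_cast hk
  have h := meromorphicOrderAt_add_eq_left_of_lt (f₁ := θ) (f₂ := fun _ : ℂ => -a)
    (MeromorphicAt.const _ x) (by rw [ho]; exact lt_of_lt_of_le hk' (const_nonneg _ _))
  have e : θ + (fun _ : ℂ => -a) = fun z => θ z - a := by
    funext z; simp [sub_eq_add_neg]
  rw [← e, h, ho]

lemma prod_order (θ : ℂ → ℂ) (x : ℂ) (k : ℤ) (hθ : MeromorphicAt θ x) (hk : k < 0)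
    (ho : meromorphicOrderAt θ x = (k : WithTop ℤ)) (s : Multiset ℂ) :
    MeromorphicAt (fun z => ((s.map (fun a => X - C a)).prod : ℂ[X]).eval (θ z)) x ∧
    meromorphicOrderAt (fun z => ((s.map (fun a => X - C a)).prod : ℂ[X]).eval (θ z)) x =
      ((s.card * k : ℤ) : WithTop ℤ) := by
  induction s using Multiset.induction with
  | empty =>
    simp only [Multiset.map_zero, Multiset.prod_zero, eval_one, Multiset.card_zero]
    refine ⟨MeromorphicAt.const _ x, ?_⟩
    have := meromorphicOrderAt_const x (1 : ℂ)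
    rw [this]
    simp
  | cons a s ih =>
    have e : (fun z => (((a ::ₘ s).map (fun a => X - C a)).prod : ℂ[X]).eval (θ z)) =
        (fun z => θ z - a) * (fun z => ((s.map (fun a => X - C a)).prod : ℂ[X]).eval (θ z)) := by
      funext z
      rw [Multiset.map_cons, Multiset.prod_cons, eval_mul]
      simp
    have m1 : MeromorphicAt (fun z => θ z - a) x := hθ.sub (MeromorphicAt.const _ x)
    rw [e]
    refine ⟨m1.mul ih.1, ?_⟩
    rw [meromorphicOrderAt_mul m1 ih.1, lin_order θ x k hk ho a, ih.2, Multiset.card_cons]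
    norm_cast
    push_cast
    ring

lemma poly_order (θ : ℂ → ℂ) (x : ℂ) (k : ℤ) (hθ : MeromorphicAt θ x) (hk : k < 0)
    (ho : meromorphicOrderAt θ x = (k : WithTop ℤ)) {p : ℂ[X]} (hp : p ≠ 0) :
    MeromorphicAt (fun z => p.eval (θ z)) x ∧
    meromorphicOrderAt (fun z => p.eval (θ z)) x = ((p.natDegree * k : ℤ) : WithTop ℤ) := by
  have hs : p = C p.leadingCoeff * (p.roots.map (fun a => X - C a)).prod :=
    (IsAlgClosed.splits p).eq_prod_roots
  have hl : p.leadingCoeff ≠ 0 := leadingCoeff_ne_zero.2 hp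
  have hcard : p.roots.card = p.natDegree := splits_iff_card_roots.1 (IsAlgClosed.splits p)
  obtain ⟨h1, h2⟩ := prod_order θ x k hθ hk ho p.roots
  have e : (fun z => p.eval (θ z)) = (fun _ : ℂ => p.leadingCoeff) *
      (fun z => ((p.roots.map (fun a => X - C a)).prod : ℂ[X]).eval (θ z)) := by
    funext z
    conv_lhs => rw [hs]
    rw [eval_mul, eval_C]
    rfl
  rw [e]
  refine ⟨(MeromorphicAt.const _ x).mul h1, ?_⟩
  rw [meromorphicOrderAt_mul_of_ne_zero analyticAt_const hl, h2, hcard]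

theorem not_lattes_of (A B : ℂ[X]) (hAB : IsCoprime A B) (hB : B ≠ 0)
    (hd : B.natDegree + 2 ≤ A.natDegree) : ¬ Lattes (ι A / ι B) := by
  have hA : A ≠ 0 := by
    rintro rfl
    simp at hd
  obtain ⟨c, hc0, hn, hdn⟩ := bridge _ _ hAB hB
  have hev : ∀ w : ℂ, RatFunc.eval (RingHom.id ℂ) w (ι A / ι B) = A.eval w / B.eval w := by
    intro w
    unfold RatFunc.eval
    rw [hn, hdn, eval₂_id, eval₂_id, eval_mul, eval_mul, eval_C, mul_div_mul_left _ _ hc0]
  obtain ⟨d, hd2⟩ : ∃ d : ℕ, A.natDegree = B.natDegree + 2 + d := ⟨_, (Nat.add_sub_of_le hd).symm⟩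
  rintro ⟨ω₁, ω₂, a, b, θ, hω, -, hθ, hper, hnc, hfe⟩
  obtain ⟨M, hM⟩ := order_bound θ ω₁ ω₂ hω hθ hper
  obtain ⟨z0, hz0⟩ := exists_pole θ ω₁ ω₂ hω hθ hper hnc
  -- one step
  have hstep : ∀ z : ℂ, ∀ k : ℤ, k < 0 → meromorphicOrderAt θ z = (k : WithTop ℤ) →
      meromorphicOrderAt θ (a * z + b) = (((2 + d) * k : ℤ) : WithTop ℤ) := by
    intro z k hk ho
    obtain ⟨mA, oA⟩ := poly_order θ z k (hθ z (Set.mem_univ z)) hk ho hA
    obtain ⟨mB, oB⟩ := poly_order θ z k (hθ z (Set.mem_univ z)) hk ho hB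
    have h1 : meromorphicOrderAt (fun z => A.eval (θ z) / B.eval (θ z)) z =
        (((2 + d) * k : ℤ) : WithTop ℤ) := by
      have e : (fun z => A.eval (θ z) / B.eval (θ z)) =
          (fun z => A.eval (θ z)) * (fun z => B.eval (θ z))⁻¹ := by
        funext z
        simp [div_eq_mul_inv]
      rw [e, meromorphicOrderAt_mul mA mB.inv, meromorphicOrderAt_inv, oA, oB]
      have : ((A.natDegree * k : ℤ) : WithTop ℤ) + -((B.natDegree * k : ℤ) : WithTop ℤ) =
          ((A.natDegree * k - B.natDegree * k : ℤ) : WithTop ℤ) := by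
        norm_cast
      rw [this, hd2]
      congr 1
      push_cast
      ring
    have h2 : meromorphicOrderAt (θ ∘ (fun y => a * y + b)) z =
        (((2 + d) * k : ℤ) : WithTop ℤ) := by
      rw [← h1]
      apply meromorphicOrderAt_congr
      filter_upwards [codiscrete_nhdsNE hfe z] with y hy
      show θ (a * y + b) = _
      rw [← hy, hev]
    have ha : a ≠ 0 := by
      rintro rfl
      have e : (θ ∘ (fun y : ℂ => (0 : ℂ) * y + b)) = fun _ => θ b := by
        funext y; simp
      rw [e] at h2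
      have h3 : (0 : WithTop ℤ) ≤ meromorphicOrderAt (fun _ : ℂ => θ b) z :=
        AnalyticAt.meromorphicOrderAt_nonneg analyticAt_const
      rw [h2] at h3
      have h4 : (0 : ℤ) ≤ (2 + d) * k := by exact_mod_cast h3
      nlinarith
    have h3 : AnalyticAt ℂ (fun y : ℂ => a * y + b) z := by fun_prop
    have h4 : deriv (fun y : ℂ => a * y + b) z ≠ 0 := by
      have : HasDerivAt (fun y : ℂ => a * y + b) a z := by
        simpa using ((hasDerivAt_id z).const_mul a).add_const b
      rw [this.deriv]; exact ha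
    rw [meromorphicOrderAt_comp_of_deriv_ne_zero h3 h4] at h2
    exact h2
  -- iterate
  have hiter : ∀ n : ℕ, ∃ z : ℂ, ∃ k : ℤ, k ≤ -(n + 1 : ℤ) ∧
      meromorphicOrderAt θ z = (k : WithTop ℤ) := by
    intro n
    induction n with
    | zero =>
      cases h : meromorphicOrderAt θ z0 with
      | top => rw [h] at hz0; exact absurd hz0 (by simp)
      | coe k =>
        refine ⟨z0, k, ?_, h⟩
        rw [h] at hz0
        have : k < 0 := by exact_mod_cast hz0
        push_cast
        omega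
    | succ n ih =>
      obtain ⟨z, k, hk, ho⟩ := ih
      refine ⟨a * z + b, (2 + d) * k, ?_, hstep z k (by omega) ho⟩
      push_cast
      nlinarith
  obtain ⟨z, k, hk, ho⟩ := hiter (M.natAbs)
  have h1 := hM z
  rw [ho] at h1
  have h2 : M ≤ k := by exact_mod_cast h1
  omega

theorem not_lattes_iter (k : ℕ) (hk : 1 ≤ k) : ¬ Lattes (iter fR k) := by
  rw [iter_f]
  obtain ⟨_, h2, h3, _⟩ := AB_degree k
  exact not_lattes_of _ _ (AB_coprime k) (Bn_ne k) (by rw [h2]; exact h3 hk)

end

end Pool.Agent.H32.MS
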