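import Pool.Graph.R_seed8.H884R3.MsConj

set_option autoImplicit false

/-!
Orders of rational functions at the points of the sphere and local degrees (written `At`).
-/

open Polynomial
open Pool.Agent.Helper881.Gp
open Pool.Agent.H884R3.Ms

namespace Pool.Agent.H32.MS

noncomputable section

/-- the order of a polynomial at a point of the sphere (`none` is the point at infinity) -/
def po : Option ℂ → ℂ[X] → ℤ
  | some a, p => rootMultiplicity a p
  | none, p => -(p.natDegree : ℤ)

/-- the order of a rational function at a point of the sphere -/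
def ord (x : Option ℂ) (r : RatFunc ℂ) : ℤ := po x r.num - po x r.denom

lemma po_mul (x : Option ℂ) {p q : ℂ[X]} (hp : p ≠ 0) (hq : q ≠ 0) :
    po x (p * q) = po x p + po x q := by
  cases x with
  | none =>
    simp only [po]
    rw [natDegree_mul hp hq]
    push_cast
    ring
  | some a =>
    simp only [po]
    rw [rootMultiplicity_mul (mul_ne_zero hp hq)]
    push_cast
    ring

lemma ord_div (x : Option ℂ) {A B : ℂ[X]} (hA : A ≠ 0) (hB : B ≠ 0) :
    ord x (ι A / ι B) = po x A - po x B := by
  set F := ι A / ι B with hF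
  have h1 : F.num * B = A * F.denom := (RatFunc.num_mul_eq_mul_denom_iff hB).mpr hF
  have hF0 : F ≠ 0 := div_ne_zero (ι_ne hA) (ι_ne hB)
  have hn : F.num ≠ 0 := RatFunc.num_ne_zero hF0
  have hd : F.denom ≠ 0 := RatFunc.denom_ne_zero F
  have h2 := congrArg (po x) h1
  rw [po_mul x hn hB, po_mul x hA hd] at h2
  unfold ord
  linarith

lemma rep (r : RatFunc ℂ) : r = ι r.num / ι r.denom := (RatFunc.num_div_denom r).symm

lemma ord_mul (x : Option ℂ) {r s : RatFunc ℂ} (hr : r ≠ 0) (hs : s ≠ 0) :
    ord x (r * s) = ord x r + ord x s := by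
  have hrn : r.num ≠ 0 := RatFunc.num_ne_zero hr
  have hsn : s.num ≠ 0 := RatFunc.num_ne_zero hs
  have hrd := RatFunc.denom_ne_zero r
  have hsd := RatFunc.denom_ne_zero s
  have e : r * s = ι (r.num * s.num) / ι (r.denom * s.denom) := by
    have h1 : ι (r.num * s.num) = ι r.num * ι s.num := map_mul _ _ _
    have h2 : ι (r.denom * s.denom) = ι r.denom * ι s.denom := map_mul _ _ _
    rw [h1, h2, ← div_mul_div_comm, ← rep, ← rep]
  rw [e, ord_div x (mul_ne_zero hrn hsn) (mul_ne_zero hrd hsd), po_mul x hrn hsn,
    po_mul x hrd hsd]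
  unfold ord
  ring

lemma ord_quot (x : Option ℂ) {r s : RatFunc ℂ} (hr : r ≠ 0) (hs : s ≠ 0) :
    ord x (r / s) = ord x r - ord x s := by
  have h := ord_mul x (div_ne_zero hr hs) hs
  rw [div_mul_cancel₀ r hs] at h
  linarith

lemma po_one (x : Option ℂ) : po x 1 = 0 := by
  cases x with
  | none => simp [po]
  | some a =>
    simp only [po]
    have : rootMultiplicity a (1 : ℂ[X]) = 0 := rootMultiplicity_eq_zero (by simp [IsRoot])
    rw [this]; rfl

lemma ord_ι (x : Option ℂ) {p : ℂ[X]} (hp : p ≠ 0) : ord x (ι p) = po x p := by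
  have h := ord_div x hp (one_ne_zero (α := ℂ[X]))
  have e : ι (1 : ℂ[X]) = 1 := map_one _
  rw [e, div_one, po_one, sub_zero] at h
  exact h

lemma po_C (x : Option ℂ) {c : ℂ} (hc : c ≠ 0) : po x (C c) = 0 := by
  cases x with
  | none => simp [po]
  | some a =>
    simp only [po]
    have : rootMultiplicity a (C c : ℂ[X]) = 0 :=
      rootMultiplicity_eq_zero (by simpa [IsRoot] using hc)
    rw [this]; rfl

/-- the order at `y` of `z - b` -/
def lin (y : Option ℂ) (b : ℂ) : ℤ := po y (X - C b)

lemma lin_none (b : ℂ) : lin none b = -1 := by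
  unfold lin po; simp

lemma lin_some_self (a : ℂ) : lin (some a) a = 1 := by
  unfold lin po
  simp only []
  rw [rootMultiplicity_X_sub_C_self]
  rfl

lemma lin_some_ne {a b : ℂ} (h : b ≠ a) : lin (some a) b = 0 := by
  unfold lin po
  simp only []
  have : rootMultiplicity a (X - C b : ℂ[X]) = 0 := by
    apply rootMultiplicity_eq_zero
    simp only [IsRoot, eval_sub, eval_X, eval_C]
    exact sub_ne_zero.2 h.symm
  rw [this]; rfl

/-- `h` maps the point `x` to the point `y`, with local degree `e` -/
def At (h : RatFunc ℂ) (x y : Option ℂ) (e : ℕ) : Prop :=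
  1 ≤ e ∧ ∀ b : ℂ, h - RatFunc.C b ≠ 0 ∧ ord x (h - RatFunc.C b) = e * lin y b

lemma At_unique {h : RatFunc ℂ} {x y y' : Option ℂ} {e e' : ℕ} (H : At h x y e)
    (H' : At h x y' e') : y = y' ∧ e = e' := by
  obtain ⟨h1, h2⟩ := H
  obtain ⟨h1', h2'⟩ := H'
  have key : ∀ b, (e : ℤ) * lin y b = e' * lin y' b := fun b => by
    rw [← (h2 b).2, (h2' b).2]
  cases y with
  | none =>
    cases y' with
    | none =>
      have := key 0
      rw [lin_none] at this
      exact ⟨rfl, by omega⟩
    | some a =>
      have := key a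
      rw [lin_none, lin_some_self] at this
      omega
  | some a =>
    cases y' with
    | none =>
      have := key a
      rw [lin_none, lin_some_self] at this
      omega
    | some a' =>
      have := key a
      rw [lin_some_self] at this
      by_cases haa : a = a'
      · subst haa
        rw [lin_some_self] at this
        exact ⟨rfl, by omega⟩
      · rw [lin_some_ne haa] at this
        omega

lemma sub_C (h : RatFunc ℂ) (b : ℂ) :
    h - RatFunc.C b = ι (h.num - C b * h.denom) / ι h.denom := by
  have hd : ι h.denom ≠ 0 := ι_ne (RatFunc.denom_ne_zero h)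
  have e1 : ι (h.num - C b * h.denom) = ι h.num - RatFunc.C b * ι h.denom := by
    unfold ι
    rw [map_sub, map_mul, RatFunc.algebraMap_C]
  rw [e1, sub_div, mul_div_assoc, div_self hd, mul_one, ← rep]

lemma num_sub_ne {h : RatFunc ℂ} (hd : 1 ≤ deg h) (b : ℂ) : h.num - C b * h.denom ≠ 0 := by
  intro h0
  have h1 : h.num = C b * h.denom := sub_eq_zero.1 h0
  have hcop := RatFunc.isCoprime_num_denom h
  have h2 : IsUnit h.denom := by
    rw [h1] at hcop
    have := hcop.of_mul_left_right
    exact isCoprime_self.1 this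
  have h3 := natDegree_eq_zero_of_isUnit h2
  have h4 : h.num.natDegree ≤ 0 := by
    rw [h1]
    exact (natDegree_C_mul_le _ _).trans h3.le
  unfold deg at hd
  omega

lemma ord_sub_C {h : RatFunc ℂ} (hd : 1 ≤ deg h) (x : Option ℂ) (b : ℂ) :
    h - RatFunc.C b ≠ 0 ∧ ord x (h - RatFunc.C b) = po x (h.num - C b * h.denom) - po x h.denom := by
  have h1 := num_sub_ne hd b
  have h2 := RatFunc.denom_ne_zero h
  rw [sub_C]
  exact ⟨div_ne_zero (ι_ne h1) (ι_ne h2), ord_div x h1 h2⟩

lemma cop_eval {A B : ℂ[X]} (h : IsCoprime A B) (c : ℂ) (hA : A.eval c = 0) : B.eval c ≠ 0 := by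
  obtain ⟨u, v, huv⟩ := h
  intro hB
  have := congrArg (Polynomial.eval c) huv
  rw [eval_add, eval_mul, eval_mul, hA, hB, mul_zero, mul_zero, add_zero, eval_one] at this
  exact zero_ne_one this

lemma At_exists {h : RatFunc ℂ} (hd : 1 ≤ deg h) (x : Option ℂ) : ∃ y e, At h x y e := by
  have hB0 := RatFunc.denom_ne_zero h
  have hcop := RatFunc.isCoprime_num_denom h
  cases x with
  | some c =>
    by_cases hB : h.denom.eval c = 0
    · have hA : h.num.eval c ≠ 0 := cop_eval hcop.symm c hB
      have hpos : 1 ≤ rootMultiplicity c h.denom := by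
        have := (rootMultiplicity_pos hB0).2 hB
        omega
      refine ⟨none, rootMultiplicity c h.denom, hpos, fun b => ?_⟩
      obtain ⟨h1, h2⟩ := ord_sub_C hd (some c) b
      refine ⟨h1, ?_⟩
      rw [h2, lin_none]
      have h3 : rootMultiplicity c (h.num - C b * h.denom) = 0 := by
        apply rootMultiplicity_eq_zero
        simp only [IsRoot, eval_sub, eval_mul, eval_C, hB, mul_zero, sub_zero]
        exact hA
      simp only [po]
      rw [h3]
      push_cast
      ring
    · set a := h.num.eval c / h.denom.eval c with ha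
      have hroot : (h.num - C a * h.denom).eval c = 0 := by
        rw [eval_sub, eval_mul, eval_C, ha, div_mul_cancel₀ _ hB, sub_self]
      have hpos : 1 ≤ rootMultiplicity c (h.num - C a * h.denom) := by
        have := (rootMultiplicity_pos (num_sub_ne hd a)).2 hroot
        omega
      have h4 : rootMultiplicity c h.denom = 0 := rootMultiplicity_eq_zero hB
      refine ⟨some a, rootMultiplicity c (h.num - C a * h.denom), hpos, fun b => ?_⟩
      obtain ⟨h1, h2⟩ := ord_sub_C hd (some c) b
      refine ⟨h1, ?_⟩
      rw [h2]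
      by_cases hba : b = a
      · rw [hba, lin_some_self]
        simp only [po]
        rw [h4]
        push_cast
        ring
      · rw [lin_some_ne hba]
        have h3 : rootMultiplicity c (h.num - C b * h.denom) = 0 := by
          apply rootMultiplicity_eq_zero
          intro h5
          apply hba
          simp only [IsRoot, eval_sub, eval_mul, eval_C] at h5
          rw [ha, eq_div_iff hB]
          linear_combination -h5
        simp only [po]
        rw [h4, h3]
        push_cast
        ring
  | none =>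
    by_cases hlt : h.denom.natDegree < h.num.natDegree
    · refine ⟨none, h.num.natDegree - h.denom.natDegree, by omega, fun b => ?_⟩
      obtain ⟨h1, h2⟩ := ord_sub_C hd none b
      refine ⟨h1, ?_⟩
      rw [h2, lin_none]
      have h3 : (h.num - C b * h.denom).natDegree = h.num.natDegree := by
        apply natDegree_sub_eq_left_of_natDegree_lt
        exact lt_of_le_of_lt (natDegree_C_mul_le _ _) hlt
      simp only [po]
      rw [h3, Nat.cast_sub hlt.le]
      ring
    · have hn1 : 1 ≤ h.denom.natDegree := by unfold deg at hd; omega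
      set n := h.denom.natDegree with hn
      have hlc : h.denom.coeff n ≠ 0 := by
        rw [hn, coeff_natDegree]; exact leadingCoeff_ne_zero.2 hB0
      set a := h.num.coeff n / h.denom.coeff n with ha
      have hle : ∀ b, (h.num - C b * h.denom).natDegree ≤ n := by
        intro b
        refine (natDegree_sub_le _ _).trans (max_le (by omega) (natDegree_C_mul_le _ _))
      have hco : ∀ b, (h.num - C b * h.denom).coeff n = (a - b) * h.denom.coeff n := by
        intro b
        rw [coeff_sub, coeff_C_mul, sub_mul, ha, div_mul_cancel₀ _ hlc]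
      have hlt2 : (h.num - C a * h.denom).natDegree < n := by
        rcases lt_or_eq_of_le (hle a) with h5 | h5
        · exact h5
        · exfalso
          have h6 := hco a
          rw [sub_self, zero_mul, ← h5, coeff_natDegree] at h6
          exact num_sub_ne hd a (leadingCoeff_eq_zero.1 h6)
      refine ⟨some a, n - (h.num - C a * h.denom).natDegree, by omega, fun b => ?_⟩
      obtain ⟨h1, h2⟩ := ord_sub_C hd none b
      refine ⟨h1, ?_⟩
      rw [h2]
      by_cases hba : b = a
      · rw [hba, lin_some_self]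
        simp only [po]
        rw [Nat.cast_sub hlt2.le]
        rw [← hn]
        ring
      · rw [lin_some_ne hba]
        have h3 : (h.num - C b * h.denom).natDegree = n := by
          apply le_antisymm (hle b)
          apply le_natDegree_of_ne_zero
          rw [hco]
          exact mul_ne_zero (sub_ne_zero.2 (Ne.symm hba)) hlc
        simp only [po]
        rw [h3, ← hn]
        ring

lemma At_surj {h : RatFunc ℂ} (hd : 1 ≤ deg h) (y : Option ℂ) : ∃ x e, At h x y e := by
  have hB0 := RatFunc.denom_ne_zero h
  have hcop := RatFunc.isCoprime_num_denom h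
  cases y with
  | some a =>
    obtain ⟨x, hx⟩ : ∃ x, 0 < ord x (h - RatFunc.C a) := by
      have hP := num_sub_ne hd a
      by_cases hdeg : (h.num - C a * h.denom).natDegree = 0
      · refine ⟨none, ?_⟩
        rw [(ord_sub_C hd none a).2]
        simp only [po]
        rw [hdeg]
        have : 1 ≤ h.denom.natDegree := by
          by_contra hcon
          have h0 : h.denom.natDegree = 0 := by omega
          have h1 : 1 ≤ h.num.natDegree := by unfold deg at hd; omega
          have h3 : (h.num - C a * h.denom).natDegree = h.num.natDegree := by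
            apply natDegree_sub_eq_left_of_natDegree_lt
            exact lt_of_le_of_lt (natDegree_C_mul_le _ _) (by omega)
          omega
        push_cast
        omega
      · obtain ⟨c, hc⟩ := IsAlgClosed.exists_root (h.num - C a * h.denom) (by
          intro h0
          exact hdeg (natDegree_eq_zero_iff_degree_le_zero.2 h0.le))
        refine ⟨some c, ?_⟩
        rw [(ord_sub_C hd (some c) a).2]
        have hB : h.denom.eval c ≠ 0 := by
          intro hB
          have hA := cop_eval hcop.symm c hB
          simp only [IsRoot, eval_sub, eval_mul, eval_C, hB, mul_zero, sub_zero] at hc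
          exact hA hc
        have h4 : rootMultiplicity c h.denom = 0 := rootMultiplicity_eq_zero hB
        have h5 := (rootMultiplicity_pos hP).2 hc
        simp only [po]
        rw [h4]
        push_cast
        omega
    obtain ⟨y', e', H⟩ := At_exists hd x
    have h1 := (H.2 a).2
    rw [h1] at hx
    have hy : y' = some a := by
      cases y' with
      | none =>
        rw [lin_none] at hx
        have := H.1
        omega
      | some a' =>
        by_cases haa : a = a'
        · rw [haa]
        · rw [lin_some_ne haa] at hx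
          omega
    exact ⟨x, e', hy ▸ H⟩
  | none =>
    obtain ⟨x, hx⟩ : ∃ x, ord x (h - RatFunc.C 0) < 0 := by
      by_cases hdeg : h.denom.natDegree = 0
      · refine ⟨none, ?_⟩
        rw [(ord_sub_C hd none 0).2]
        have h1 : 1 ≤ h.num.natDegree := by unfold deg at hd; omega
        rw [C_0, zero_mul, sub_zero]
        simp only [po]
        omega
      · obtain ⟨c, hc⟩ := IsAlgClosed.exists_root h.denom (by
          intro h0
          exact hdeg (natDegree_eq_zero_iff_degree_le_zero.2 h0.le))
        refine ⟨some c, ?_⟩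
        rw [(ord_sub_C hd (some c) 0).2, C_0, zero_mul, sub_zero]
        have hA := cop_eval hcop.symm c hc
        have h4 : rootMultiplicity c h.num = 0 := rootMultiplicity_eq_zero hA
        have h5 := (rootMultiplicity_pos hB0).2 hc
        simp only [po]
        rw [h4]
        push_cast
        omega
    obtain ⟨y', e', H⟩ := At_exists hd x
    have h1 := (H.2 0).2
    rw [h1] at hx
    have hy : y' = none := by
      cases y' with
      | none => rfl
      | some a' =>
        by_cases haa : (0 : ℂ) = a'
        · rw [← haa, lin_some_self] at hx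
          omega
        · rw [lin_some_ne haa] at hx
          omega
    exact ⟨x, e', hy ▸ H⟩

lemma ι_lin (b : ℂ) : ι (X - C b) = RatFunc.X - RatFunc.C b := by
  unfold ι
  rw [map_sub, RatFunc.algebraMap_X, RatFunc.algebraMap_C]

lemma sig_C (σ : RatFunc ℂ →ₐ[ℂ] RatFunc ℂ) (b : ℂ) : σ (RatFunc.C b) = RatFunc.C b := by
  have := σ.commutes b
  rwa [RatFunc.algebraMap_eq_C] at this

lemma sig_ne (σ : RatFunc ℂ →ₐ[ℂ] RatFunc ℂ) {r : RatFunc ℂ} (hr : r ≠ 0) : σ r ≠ 0 :=
  (map_ne_zero_iff _ (RingHom.injective σ.toRingHom)).mpr hr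

lemma ord_C' (x : Option ℂ) {c : ℂ} (hc : c ≠ 0) : ord x (RatFunc.C c) = 0 := by
  have e : RatFunc.C c = ι (C c) := (RatFunc.algebraMap_C c).symm
  rw [e, ord_ι x (C_ne_zero.2 hc), po_C x hc]

lemma ord_sig_prod (σ : RatFunc ℂ →ₐ[ℂ] RatFunc ℂ) {x y : Option ℂ} {e : ℕ}
    (H : At (σ RatFunc.X) x y e) (s : Multiset ℂ) :
    ord x (σ (ι (s.map (fun a => X - C a)).prod)) =
      e * po y (s.map (fun a => X - C a)).prod := by
  induction s using Multiset.induction with
  | empty =>
    have e1 : ι (1 : ℂ[X]) = 1 := map_one _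
    simp only [Multiset.map_zero, Multiset.prod_zero]
    rw [e1, map_one, po_one, mul_zero]
    have := ord_C' x (one_ne_zero (α := ℂ))
    rwa [map_one] at this
  | cons a s ih =>
    rw [Multiset.map_cons, Multiset.prod_cons]
    have h1 : (X - C a : ℂ[X]) ≠ 0 := X_sub_C_ne_zero a
    have h2 : (s.map (fun a => X - C a)).prod ≠ 0 := by
      apply Multiset.prod_ne_zero
      intro h
      obtain ⟨c, _, hc⟩ := Multiset.mem_map.1 h
      exact X_sub_C_ne_zero c hc
    have e2 : ι ((X - C a) * (s.map (fun a => X - C a)).prod) =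
        ι (X - C a) * ι (s.map (fun a => X - C a)).prod := map_mul _ _ _
    rw [e2, map_mul, ord_mul x (sig_ne σ (ι_ne h1)) (sig_ne σ (ι_ne h2)), ih, po_mul y h1 h2,
      ι_lin, map_sub, sig_C, (H.2 a).2]
    unfold lin
    ring

lemma ord_sig_poly (σ : RatFunc ℂ →ₐ[ℂ] RatFunc ℂ) {x y : Option ℂ} {e : ℕ}
    (H : At (σ RatFunc.X) x y e) {p : ℂ[X]} (hp : p ≠ 0) :
    ord x (σ (ι p)) = e * po y p := by
  have hs : p = C p.leadingCoeff * (p.roots.map (fun a => X - C a)).prod :=
    (IsAlgClosed.splits p).eq_prod_roots
  have hl : p.leadingCoeff ≠ 0 := leadingCoeff_ne_zero.2 hp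
  have h2 : (p.roots.map (fun a => X - C a)).prod ≠ 0 := by
    intro h
    rw [h, mul_zero] at hs
    exact hp hs
  have e1 : ι (C p.leadingCoeff * (p.roots.map (fun a => X - C a)).prod) =
      RatFunc.C p.leadingCoeff * ι (p.roots.map (fun a => X - C a)).prod := by
    unfold ι
    rw [map_mul, RatFunc.algebraMap_C]
  conv_lhs => rw [hs]
  conv_rhs => rw [hs]
  have hc : RatFunc.C p.leadingCoeff ≠ 0 := by
    rw [← RatFunc.algebraMap_C]
    exact ι_ne (C_ne_zero.2 hl)
  rw [e1, map_mul, sig_C, ord_mul x hc (sig_ne σ (ι_ne h2)), ord_sig_prod σ H,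
    po_mul y (C_ne_zero.2 hl) h2, po_C y hl, ord_C' x hl]
  ring

lemma ord_sig (σ : RatFunc ℂ →ₐ[ℂ] RatFunc ℂ) {x y : Option ℂ} {e : ℕ}
    (H : At (σ RatFunc.X) x y e) {r : RatFunc ℂ} (hr : r ≠ 0) :
    ord x (σ r) = e * ord y r := by
  have hn : r.num ≠ 0 := RatFunc.num_ne_zero hr
  have hd := RatFunc.denom_ne_zero r
  conv_lhs => rw [rep r]
  rw [map_div₀, ord_quot x (sig_ne σ (ι_ne hn)) (sig_ne σ (ι_ne hd)), ord_sig_poly σ H hn,
    ord_sig_poly σ H hd]
  unfold ord
  ring

lemma At_comp {r h : RatFunc ℂ} {x y z : Option ℂ} {e e' : ℕ} (hd : 1 ≤ deg h)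
    (H : At h x y e) (H' : At r y z e') : At (comp r h) x z (e * e') := by
  obtain ⟨σ, rfl⟩ := Pool.Agent.Helper881.Cen.Hom.exists_end h hd
  rw [Pool.Agent.Helper881.Cen.Hom.comp_hom]
  refine ⟨Nat.mul_pos H.1 H'.1, fun b => ?_⟩
  obtain ⟨h1, h2⟩ := H'.2 b
  have e1 : σ r - RatFunc.C b = σ (r - RatFunc.C b) := by rw [map_sub, sig_C]
  rw [e1]
  refine ⟨sig_ne σ h1, ?_⟩
  rw [ord_sig σ H h1, h2]
  push_cast
  ring

end

end Pool.Agent.H32.MS
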