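import Pool.Agent.H32.MS.Orbit

set_option autoImplicit false

/-!
The odd iterates of `g = -1 / f` do not have the invariant `Inv`.
-/

open Polynomial
open Pool.Agent.Helper881.Gp
open Pool.Agent.H884R3.Ms

namespace Pool.Agent.H32.MS

noncomputable section

lemma iter_orbit {F : RatFunc ℂ} (hF : 1 ≤ deg F) (G : Option ℂ → Option ℂ) (E : Option ℂ → ℕ)
    (h : ∀ x, At F x (G x) (E x)) (n : ℕ) (x : Option ℂ) :
    At (iter F n) x (G^[n] x) (∏ i ∈ Finset.range n, E (G^[i] x)) := by
  induction n with
  | zero => exact At_X x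
  | succ n ih =>
    rw [iter_succ, Function.iterate_succ_apply', Finset.prod_range_succ]
    exact At_comp (one_le_deg_iter hF n) ih (h _)

theorem not_inv_g (k : ℕ) (hk : Odd k) : ¬ Inv (iter gR k) := by
  rintro ⟨p, x, e, n, m, he, hp, hx⟩
  choose G E hGE using fun x => At_exists deg_g1 x
  have orb := iter_orbit deg_g1 G E hGE
  have G0 : G (some 0) = none := (At_unique (hGE _) g_zero).1
  have G7 : G (some 7) = none := (At_unique (hGE _) g_seven).1
  have Gi : G none = some 0 := (At_unique (hGE _) g_inf).1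
  have Gm : G (some (-(1 / 7))) = some 0 := (At_unique (hGE _) g_m).1
  set D : Option ℂ → Prop := fun x => x = none ∨ x = some 0 with hD
  have DG : ∀ x, D x → D (G x) := by
    rintro x (rfl | rfl)
    · right; exact Gi
    · left; exact G0
  have Dn : ∀ (n : ℕ) (x : Option ℂ), D x → D (G^[n] x) := by
    intro n
    induction n with
    | zero => exact fun x h => h
    | succ n ih => intro x h; rw [Function.iterate_succ_apply]; exact ih _ (DG x h)
  have SG : ∀ x, (x = none ∨ x = some 0 ∨ x = some 7 ∨ x = some (-(1 / 7))) → D (G x) := by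
    rintro x (rfl | rfl | rfl | rfl)
    · exact DG _ (Or.inl rfl)
    · exact DG _ (Or.inr rfl)
    · left; exact G7
    · right; exact Gm
  have later : ∀ (x : Option ℂ) (i N : ℕ), i < N → D (G (G^[i] x)) → D (G^[N] x) := by
    intro x i N hiN h
    have e1 : G^[N] x = G^[N - i - 1] (G (G^[i] x)) := by
      rw [← Function.iterate_succ_apply' G i x, ← Function.iterate_add_apply]
      congr 1
      omega
    rw [e1]
    exact Dn _ _ h
  have even : ∀ (j : ℕ) (x : Option ℂ), D x → G^[2 * j] x = x := by
    intro j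
    induction j with
    | zero => intro x _; rfl
    | succ j ih =>
      intro x h
      have e1 : 2 * (j + 1) = 2 * j + 1 + 1 := by ring
      rw [e1, Function.iterate_succ_apply', Function.iterate_succ_apply', ih x h]
      rcases h with rfl | rfl
      · rw [Gi, G0]
      · rw [G0, Gi]
  -- the fixed critical point
  obtain ⟨hpk, hek⟩ := At_unique (orb k p) hp
  have hnD : ¬ D p := by
    intro h
    obtain ⟨j, rfl⟩ := hk
    have hs : G^[2 * j + 1] p = G (G^[2 * j] p) := Function.iterate_succ_apply' G (2 * j) p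
    rw [hs, even j p h] at hpk
    rcases h with rfl | rfl
    · rw [Gi] at hpk; simp at hpk
    · rw [G0] at hpk; simp at hpk
  obtain ⟨i, hi, hEi⟩ : ∃ i ∈ Finset.range k, 2 ≤ E (G^[i] p) := by
    by_contra hcon
    push Not at hcon
    have : ∏ i ∈ Finset.range k, E (G^[i] p) = 1 := by
      apply Finset.prod_eq_one
      intro i hi
      have h1 := hcon i hi
      have h2 := (hGE (G^[i] p)).1
      omega
    omega
  rw [Finset.mem_range] at hi
  obtain ⟨v, hv, hpv⟩ : ∃ v : ℂ, v ^ 2 + 11 * v - 1 = 0 ∧ p = some v := by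
    rcases g_crit (hGE _) hEi with h | ⟨v, hv, h1, h2, -⟩
    · exact absurd (hpk ▸ later p i k hi (SG _ h)) hnD
    · refine ⟨v, hv, ?_⟩
      have fix : ∀ j : ℕ, G^[j] (some v) = some v := by
        intro j
        induction j with
        | zero => rfl
        | succ j ih => rw [Function.iterate_succ_apply', ih, ← h1, h2, h1]
      have e1 : G^[k] p = G^[k - i] (G^[i] p) := by
        rw [← Function.iterate_add_apply]
        congr 1
        omega
      rw [← hpk, e1, h1, fix]
  -- the points over it
  rw [iter_iter _ deg_g1] at hx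
  obtain ⟨hxN, hm⟩ := At_unique (orb (k * n) x) hx
  have h5 : 5 ∣ ∏ i ∈ Finset.range (k * n), E (G^[i] x) := ⟨m, hm⟩
  obtain ⟨i, hi, hdiv⟩ := (Nat.prime_five.prime.dvd_finsetProd_iff _).1 h5
  rw [Finset.mem_range] at hi
  have hE := (hGE (G^[i] x)).1
  have hge : 5 ≤ E (G^[i] x) := Nat.le_of_dvd hE hdiv
  rcases g_crit (hGE _) (by omega : 2 ≤ E (G^[i] x)) with h | ⟨_, _, _, _, h2⟩
  · exact hnD (hxN ▸ later x i _ hi (SG _ h))
  · omega

end

end Pool.Agent.H32.MS
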