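import Pool.Agent.H32.MS.Inv

set_option autoImplicit false

/-!
Local degrees of the two maps `f` and `g = -1 / f` of degree seven.
-/

open Polynomial
open Pool.Agent.Helper881.Gp
open Pool.Agent.H884R3.Ms

namespace Pool.Agent.H32.MS

noncomputable section

lemma At_of_pos {h : RatFunc ℂ} (hd : 1 ≤ deg h) {x : Option ℂ} {a : ℂ} {e : ℕ} (he : 1 ≤ e)
    (H : ord x (h - RatFunc.C a) = e) : At h x (some a) e := by
  obtain ⟨y, e', H'⟩ := At_exists hd x
  have h1 := (H'.2 a).2
  rw [H] at h1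
  have h0 := H'.1
  cases y with
  | none => rw [lin_none] at h1; omega
  | some a' =>
    by_cases haa : a = a'
    · subst haa
      rw [lin_some_self] at h1
      have : e' = e := by omega
      rw [this] at H'
      exact H'
    · rw [lin_some_ne haa] at h1
      omega

lemma At_of_neg {h : RatFunc ℂ} (hd : 1 ≤ deg h) {x : Option ℂ} {b : ℂ} {e : ℕ} (he : 1 ≤ e)
    (H : ord x (h - RatFunc.C b) = -e) : At h x none e := by
  obtain ⟨y, e', H'⟩ := At_exists hd x
  have h1 := (H'.2 b).2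
  rw [H] at h1
  have h0 := H'.1
  cases y with
  | none =>
    rw [lin_none] at h1
    have : e' = e := by omega
    rw [this] at H'
    exact H'
  | some a' =>
    by_cases haa : b = a'
    · subst haa
      rw [lin_some_self] at h1
      omega
    · rw [lin_some_ne haa] at h1
      omega

lemma div_sub_C (A B : ℂ[X]) (hB : B ≠ 0) (b : ℂ) :
    ι A / ι B - RatFunc.C b = ι (A - C b * B) / ι B := by
  have hd : ι B ≠ 0 := ι_ne hB
  have e1 : ι (A - C b * B) = ι A - RatFunc.C b * ι B := by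
    unfold ι
    rw [map_sub, map_mul, RatFunc.algebraMap_C]
  rw [e1, sub_div, mul_div_assoc, div_self hd, mul_one]

lemma At_X (x : Option ℂ) : At RatFunc.X x x 1 := by
  refine ⟨le_refl _, fun b => ?_⟩
  rw [← ι_lin]
  refine ⟨ι_ne (X_sub_C_ne_zero b), ?_⟩
  rw [ord_ι x (X_sub_C_ne_zero b)]
  unfold lin
  push_cast
  ring

/-- numerator of `f`, denominator of `g` -/
def U : ℂ[X] := X ^ 2 * (X - C 7) ^ 5
/-- denominator of `f`, minus the numerator of `g` -/
def V : ℂ[X] := (C 7 * X + 1) ^ 5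

lemma C7 : (C 7 : ℂ[X]) = 7 := map_ofNat C 7

lemma An_one : An 1 = U := by
  rw [An_succ, An_zero, Bn_zero, mul_one, U, C7]

lemma Bn_one : Bn 1 = V := by
  rw [Bn_succ, An_zero, Bn_zero, V, C7]
  ring

lemma UV_coprime : IsCoprime U V := by
  have := AB_coprime 1
  rwa [An_one, Bn_one] at this

lemma U_ne : U ≠ 0 := by rw [← An_one]; exact An_ne 1
lemma V_ne : V ≠ 0 := by rw [← Bn_one]; exact Bn_ne 1

lemma fR_rep : fR = ι U / ι V := by
  rw [← An_one, ← Bn_one, ← iter_f, iter_one]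

lemma gR_rep : gR = ι (-V) / ι U := by
  rw [← An_one, ← Bn_one]
  have := (iter_g 0).2
  simp only [mul_zero, zero_add] at this
  rw [← this, iter_one]

lemma deg_f1 : 1 ≤ deg fR := by rw [deg_fR]; norm_num
lemma deg_g1 : 1 ≤ deg gR := by rw [deg_gR]; norm_num

lemma rm_pow {a b : ℂ} (n : ℕ) (p : ℂ[X]) (hp : p.eval a ≠ 0) (hb : b ≠ 0) :
    rootMultiplicity a (p * (C b * (X - C a)) ^ n) = n := by
  have hp0 : p ≠ 0 := by rintro rfl; exact hp (by simp)
  have h1 : (C b * (X - C a) : ℂ[X]) ^ n = C (b ^ n) * (X - C a) ^ n := by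
    rw [mul_pow, ← C_pow]
  have hc : (C (b ^ n) : ℂ[X]) ≠ 0 := C_ne_zero.2 (pow_ne_zero _ hb)
  have hX : ((X - C a : ℂ[X]) ^ n) ≠ 0 := pow_ne_zero _ (X_sub_C_ne_zero a)
  rw [h1, rootMultiplicity_mul (mul_ne_zero hp0 (mul_ne_zero hc hX)),
    rootMultiplicity_mul (mul_ne_zero hc hX), rootMultiplicity_eq_zero hp,
    rootMultiplicity_X_sub_C_pow, rootMultiplicity_C]
  ring

lemma U_zero : rootMultiplicity 0 U = 2 := by
  have e : U = (X - C 7) ^ 5 * (C 1 * (X - C 0)) ^ 2 := by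
    rw [U, C_1, C_0]; ring
  rw [e, rm_pow 2 _ (by simp) one_ne_zero]

lemma U_seven : rootMultiplicity 7 U = 5 := by
  have e : U = X ^ 2 * (C 1 * (X - C 7)) ^ 5 := by
    rw [U, C_1]; ring
  rw [e, rm_pow 5 _ (by simp) one_ne_zero]

lemma V_m : rootMultiplicity (-(1 / 7)) V = 5 := by
  have e : V = 1 * (C 7 * (X - C (-(1 / 7)))) ^ 5 := by
    rw [V, one_mul, mul_sub, ← C_mul]
    norm_num
  rw [e, rm_pow 5 _ (by simp) (by norm_num)]

lemma V_rm {c : ℂ} (h : 7 * c + 1 ≠ 0) : rootMultiplicity c V = 0 := by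
  apply rootMultiplicity_eq_zero
  simp only [IsRoot, V, eval_pow, eval_add, eval_mul, eval_C, eval_X, eval_one]
  exact pow_ne_zero _ h

lemma U_rm {c : ℂ} (h : c ≠ 0) (h7 : c - 7 ≠ 0) : rootMultiplicity c U = 0 := by
  apply rootMultiplicity_eq_zero
  simp only [IsRoot, U, eval_pow, eval_sub, eval_mul, eval_C, eval_X]
  exact mul_ne_zero (pow_ne_zero _ h) (pow_ne_zero _ h7)

lemma U_deg : U.natDegree = 7 := by
  rw [← An_one, (AB_degree 1).2.1]; norm_num

lemma V_deg : V.natDegree = 5 := by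
  unfold V
  rw [natDegree_pow]
  have : (C 7 * X + 1 : ℂ[X]).natDegree = 1 := by
    have := natDegree_linear (R := ℂ) (a := 7) (b := 1) (by norm_num)
    rwa [C_1] at this
  rw [this]

/-! the map `f` -/

lemma f_zero : At fR (some 0) (some 0) 2 := by
  apply At_of_pos deg_f1 (by norm_num)
  rw [map_zero, sub_zero, fR_rep, ord_div _ U_ne V_ne]
  simp only [po]
  rw [U_zero, V_rm (by norm_num)]
  norm_num

lemma f_seven : At fR (some 7) (some 0) 5 := by
  apply At_of_pos deg_f1 (by norm_num)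
  rw [map_zero, sub_zero, fR_rep, ord_div _ U_ne V_ne]
  simp only [po]
  rw [U_seven, V_rm (by norm_num)]
  norm_num

lemma f_iter_zero (k : ℕ) : At (iter fR k) (some 0) (some 0) (2 ^ k) := by
  induction k with
  | zero => exact At_X _
  | succ k ih =>
    rw [iter_succ, pow_succ]
    exact At_comp (one_le_deg_iter deg_f1 k) ih f_zero

lemma inv_f (k : ℕ) (hk : 1 ≤ k) : Inv (iter fR k) := by
  obtain ⟨j, rfl⟩ : ∃ j, k = j + 1 := ⟨k - 1, by omega⟩
  refine ⟨some 0, some 7, 2 ^ (j + 1), 1, 2 ^ j, ?_, f_iter_zero _, ?_⟩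
  · rw [pow_succ]
    have : 1 ≤ 2 ^ j := Nat.one_le_two_pow
    omega
  · rw [iter_one, iter_succ' _ deg_f1]
    exact At_comp deg_f1 f_seven (f_iter_zero j)

/-! the map `g` -/

lemma negV_ne : -V ≠ 0 := neg_ne_zero.2 V_ne

lemma po_neg (x : Option ℂ) (p : ℂ[X]) : po x (-p) = po x p := by
  cases x with
  | none => simp [po]
  | some a =>
    simp only [po]
    congr 1
    by_cases hp : p = 0
    · rw [hp, neg_zero]
    · have e : -p = C (-1) * p := by rw [C_neg, C_1]; ring
      rw [e, rootMultiplicity_mul (mul_ne_zero (C_ne_zero.2 (by norm_num)) hp),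
        rootMultiplicity_C, zero_add]

lemma ord_g (x : Option ℂ) : ord x (gR - RatFunc.C 0) = po x V - po x U := by
  rw [map_zero, sub_zero, gR_rep, ord_div _ negV_ne U_ne, po_neg]

lemma g_zero : At gR (some 0) none 2 := by
  apply At_of_neg (b := 0) deg_g1 (by norm_num)
  rw [ord_g]
  simp only [po]
  rw [U_zero, V_rm (by norm_num)]
  norm_num

lemma g_seven : At gR (some 7) none 5 := by
  apply At_of_neg (b := 0) deg_g1 (by norm_num)
  rw [ord_g]
  simp only [po]
  rw [U_seven, V_rm (by norm_num)]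
  norm_num

lemma g_inf : At gR none (some 0) 2 := by
  apply At_of_pos deg_g1 (by norm_num)
  rw [ord_g]
  simp only [po]
  rw [U_deg, V_deg]
  norm_num

lemma g_m : At gR (some (-(1 / 7))) (some 0) 5 := by
  apply At_of_pos deg_g1 (by norm_num)
  rw [ord_g]
  simp only [po]
  rw [V_m, U_rm (by norm_num) (by norm_num)]
  norm_num

/-- the critical points of `g` -/
lemma g_crit {x y : Option ℂ} {e : ℕ} (H : At gR x y e) (he : 2 ≤ e) :
    (x = none ∨ x = some 0 ∨ x = some 7 ∨ x = some (-(1 / 7))) ∨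
      ∃ v : ℂ, v ^ 2 + 11 * v - 1 = 0 ∧ x = some v ∧ y = some v ∧ e = 2 := by
  cases x with
  | none => exact Or.inl (Or.inl rfl)
  | some c =>
    by_cases hc0 : c = 0
    · subst hc0; exact Or.inl (Or.inr (Or.inl rfl))
    by_cases hc7 : c = 7
    · subst hc7; exact Or.inl (Or.inr (Or.inr (Or.inl rfl)))
    by_cases hcm : c = -(1 / 7)
    · subst hcm; exact Or.inl (Or.inr (Or.inr (Or.inr rfl)))
    right
    have h7 : c - 7 ≠ 0 := sub_ne_zero.2 hc7
    have hm : 7 * c + 1 ≠ 0 := by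
      intro h
      apply hcm
      linear_combination h / 7
    have hU : U.eval c = c ^ 2 * (c - 7) ^ 5 := by simp [U]
    have hV : V.eval c = (7 * c + 1) ^ 5 := by simp [V]
    have hU0 : U.eval c ≠ 0 := by
      rw [hU]; exact mul_ne_zero (pow_ne_zero _ hc0) (pow_ne_zero _ h7)
    have hU' : U.derivative.eval c = 2 * c * (c - 7) ^ 5 + 5 * c ^ 2 * (c - 7) ^ 4 := by
      simp [U, derivative_mul, derivative_pow]; ring
    have hV' : V.derivative.eval c = 35 * (7 * c + 1) ^ 4 := by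
      simp [V, derivative_mul, derivative_pow]; ring
    have hU'' : U.derivative.derivative.eval c =
        2 * (c - 7) ^ 5 + 20 * c * (c - 7) ^ 4 + 20 * c ^ 2 * (c - 7) ^ 3 := by
      simp [U, derivative_mul, derivative_pow]; ring
    have hV'' : V.derivative.derivative.eval c = 980 * (7 * c + 1) ^ 3 := by
      simp [V, derivative_mul, derivative_pow]; ring
    have hnotpole : y ≠ none := by
      rintro rfl
      have h1 := (H.2 0).2
      rw [ord_g, lin_none] at h1
      simp only [po] at h1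
      rw [V_rm hm, U_rm hc0 h7] at h1
      omega
    obtain ⟨a, rfl⟩ := Option.ne_none_iff_exists'.1 hnotpole
    set P : ℂ[X] := -V - C a * U with hP
    have hdiff : gR - RatFunc.C a = ι P / ι U := by
      rw [gR_rep, div_sub_C _ _ U_ne]
    have hP0 : P ≠ 0 := by
      intro h0
      have h1 := (H.2 a).1
      rw [hdiff, h0] at h1
      apply h1
      have : ι (0 : ℂ[X]) = 0 := map_zero _
      rw [this, zero_div]
    have hmult : rootMultiplicity c P = e := by
      have h1 := (H.2 a).2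
      rw [hdiff, ord_div _ hP0 U_ne, lin_some_self] at h1
      simp only [po] at h1
      rw [U_rm hc0 h7] at h1
      omega
    have hdvd2 : (X - C c) ^ 2 ∣ P :=
      (pow_dvd_pow _ (by omega)).trans (pow_rootMultiplicity_dvd P c)
    obtain ⟨Q, hQ⟩ := hdvd2
    have p0 : P.eval c = 0 := by rw [hQ]; simp
    have p1 : P.derivative.eval c = 0 := by
      rw [hQ]; simp [derivative_mul, derivative_pow]
    have q0 : -(7 * c + 1) ^ 5 - a * (c ^ 2 * (c - 7) ^ 5) = 0 := by
      rw [← hU, ← hV, ← p0, hP]; simp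
    have q1 : -(35 * (7 * c + 1) ^ 4) -
        a * (2 * c * (c - 7) ^ 5 + 5 * c ^ 2 * (c - 7) ^ 4) = 0 := by
      rw [← hU', ← hV', ← p1, hP]; simp
    have hv : c ^ 2 + 11 * c - 1 = 0 := by
      have h2 : 14 * (c * (c - 7) ^ 4 * (7 * c + 1) ^ 4) * (c ^ 2 + 11 * c - 1) = 0 := by
        linear_combination (c ^ 2 * (c - 7) ^ 5) * q1 -
          (2 * c * (c - 7) ^ 5 + 5 * c ^ 2 * (c - 7) ^ 4) * q0
      rcases mul_eq_zero.1 h2 with h3 | h3
      · exfalso
        have : (14 : ℂ) * (c * (c - 7) ^ 4 * (7 * c + 1) ^ 4) ≠ 0 :=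
          mul_ne_zero (by norm_num) (mul_ne_zero (mul_ne_zero hc0 (pow_ne_zero _ h7))
            (pow_ne_zero _ hm))
        exact this h3
      · exact h3
    refine ⟨c, hv, rfl, ?_, ?_⟩
    · congr 1
      have h3 : (a - c) * (c ^ 2 * (c - 7) ^ 5) = 0 := by
        linear_combination -q0 + (-c ^ 6 + 46 * c ^ 5 - 997 * c ^ 4 - 2364 * c ^ 3 + 997 * c ^ 2
          + 46 * c + 1) * hv
      rcases mul_eq_zero.1 h3 with h4 | h4
      · exact sub_eq_zero.1 h4
      · exact absurd h4 (mul_ne_zero (pow_ne_zero _ hc0) (pow_ne_zero _ h7))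
    · by_contra hne
      have hdvd3 : (X - C c) ^ 3 ∣ P :=
        (pow_dvd_pow _ (by omega)).trans (pow_rootMultiplicity_dvd P c)
      obtain ⟨R, hR⟩ := hdvd3
      have p2 : P.derivative.derivative.eval c = 0 := by
        rw [hR]; simp [derivative_mul, derivative_pow]
      have q2 : -(980 * (7 * c + 1) ^ 3) -
          a * (2 * (c - 7) ^ 5 + 20 * c * (c - 7) ^ 4 + 20 * c ^ 2 * (c - 7) ^ 3) = 0 := by
        rw [← hU'', ← hV'', ← p2, hP]; simp
      have h5 : 14 * (c * (c - 7) ^ 4 * (7 * c + 1) ^ 4) * (2 * c + 11) = 0 := by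
        linear_combination (c ^ 2 * (c - 7) ^ 5) * q2 -
          (2 * (c - 7) ^ 5 + 20 * c * (c - 7) ^ 4 + 20 * c ^ 2 * (c - 7) ^ 3) * q0 -
          14 * ((c - 7) ^ 4 * (7 * c + 1) ^ 4 + 4 * c * (c - 7) ^ 3 * (7 * c + 1) ^ 4 +
            28 * c * (c - 7) ^ 4 * (7 * c + 1) ^ 3) * hv
      rcases mul_eq_zero.1 h5 with h6 | h6
      · have : (14 : ℂ) * (c * (c - 7) ^ 4 * (7 * c + 1) ^ 4) ≠ 0 :=
          mul_ne_zero (by norm_num) (mul_ne_zero (mul_ne_zero hc0 (pow_ne_zero _ h7))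
            (pow_ne_zero _ hm))
        exact this h6
      · have h8 : (125 : ℂ) = 0 := by linear_combination (2 * c + 11) * h6 - 4 * hv
        norm_num at h8

end

end Pool.Agent.H32.MS
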